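import Pool.Agent.Helper99.WP.GoalsK

/-!
# Packet WP CMP: comparison on parent cubes
-/

set_option autoImplicit false

open Finset

namespace Pool.Agent.Helper87.WP.CMPaux

open Pool.Agent.Helper99.WP Pool.Agent.Helper99.ERW

variable {d : ℕ}

theorem mem_self_Q (hQQQ : QQQ_stmt) (r : ℕ) (x : Site d) : x ∈ Q r x := by
  rw [(hQQQ d).1]
  intro l
  simp

theorem ind_nonneg (A : Finset (Site d)) (x : Site d) : 0 ≤ ind A x := by
  unfold ind
  split_ifs <;> norm_num

theorem ind_le_one (A : Finset (Site d)) (x : Site d) : ind A x ≤ 1 := by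
  unfold ind
  split_ifs <;> norm_num

theorem ind_mono {A B : Finset (Site d)} (h : A ⊆ B) (x : Site d) : ind A x ≤ ind B x := by
  unfold ind
  by_cases hx : x ∈ A
  · rw [if_pos hx, if_pos (h hx)]
  · rw [if_neg hx]
    split_ifs <;> norm_num

/-- Linearity of the generator. -/
theorem lap_lin (p : Site d → Fin d → ℝ) (u v : Site d → ℝ) (a b e : ℝ) (x : Site d) :
    lap p (fun z => a * u z + b * v z + e) x = a * lap p u x + b * lap p v x := by
  unfold lap
  rw [mul_sum, mul_sum, ← sum_add_distrib]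
  refine sum_congr rfl fun l _ => ?_
  ring

/-- A function vanishing off `D`, harmonic in `D` off `P`, and at least `t ≤ 0` on `P`, is at
least `t` everywhere. -/
theorem ge_of_ge (hMXP : MXP_stmt) {κ : ℝ} {p : Site d → Fin d → ℝ} (hκ : 0 < κ)
    (hp : Ell κ p) (D P : Finset (Site d)) (f : Site d → ℝ) (h0 : ∀ x, x ∉ D → f x = 0)
    (h1 : ∀ x ∈ D, x ∉ P → lap p f x = 0) {t : ℝ} (ht : t ≤ 0) (hP : ∀ x ∈ P, t ≤ f x) :
    ∀ x, t ≤ f x := by
  have hall : ∀ x, x ∉ D \ P → t ≤ f x := by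
    intro x hx
    by_cases hxP : x ∈ P
    · exact hP x hxP
    · have : x ∉ D := fun h => hx (mem_sdiff.2 ⟨h, hxP⟩)
      rw [h0 x this]
      exact ht
  have key : ∀ x ∈ D \ P, (-1) * f x + 0 * f x + t ≤ 0 := by
    apply hMXP d κ p hκ hp (D \ P) (fun z => (-1) * f z + 0 * f z + t)
    · intro x hx
      rw [mem_sdiff] at hx
      rw [lap_lin, h1 x hx.1 hx.2]
      simp
    · intro x _ l
      constructor
      · intro h
        have := hall _ h
        show (-1) * f (x + ev l) + 0 * f (x + ev l) + t ≤ 0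
        linarith
      · intro h
        have := hall _ h
        show (-1) * f (x - ev l) + 0 * f (x - ev l) + t ≤ 0
        linarith
  intro x
  by_cases hx : x ∈ D \ P
  · have := key x hx
    linarith
  · exact hall x hx

end Pool.Agent.Helper87.WP.CMPaux

namespace Pool.Agent.Helper87.WP

open Pool.Agent.Helper99.WP Pool.Agent.Helper99.ERW CMPaux

theorem CMP (hMXP : MXP_stmt) (hGEX : GEX_stmt) (hGCM : GCM_stmt) (hQQQ : QQQ_stmt)
    (hEXT : EXT_stmt) (hDNS : DNS_stmt) : CMP_stmt := by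
  intro d κ hκ
  obtain ⟨K1, ε, c1, hε0, hε1, hc1, hdns⟩ := hDNS d κ hκ 5
  obtain ⟨q1, q2, q3, q4, q5, q6⟩ := hQQQ d
  set K2 : ℕ := max K1 5 with hK2
  have hK25 : 5 ≤ K2 := le_max_right _ _
  have hK21 : K1 ≤ K2 := le_max_left _ _
  set C2 : ℝ := (d : ℝ) * ((K2 : ℝ) + 1) ^ 2 + 1 with hC2
  have hC2pos : 0 < C2 := by positivity
  set c : ℝ := min 1 (c1 / (2 * C2)) with hc
  have hcpos : 0 < c := lt_min one_pos (by positivity)
  have hcC2 : c * C2 ≤ c1 / 2 := by
    have h1 : c ≤ c1 / (2 * C2) := min_le_right _ _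
    calc c * C2 ≤ c1 / (2 * C2) * C2 := mul_le_mul_of_nonneg_right h1 hC2pos.le
      _ = c1 / 2 := by field_simp
  refine ⟨K2 + 4, 1 - ε, c, by linarith, by linarith, hcpos, min_le_left _ _, ?_⟩
  intro p hp D A r y y' hsub hD hcard
  -- geometry
  have hy' : y' ∈ Q (2 * r + 1) y := by
    rw [q1]
    intro l
    have e1 : (fun i => y' i + (r : ℤ)) ∈ Q (3 * r + 1) y := by
      apply hsub
      rw [q1]
      intro i
      simp
    have e2 : (fun i => y' i - (r : ℤ)) ∈ Q (3 * r + 1) y := by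
      apply hsub
      rw [q1]
      intro i
      simp
    rw [q1] at e1 e2
    have f1 := abs_le.1 (e1 l)
    have f2 := abs_le.1 (e2 l)
    push_cast at f1 f2 ⊢
    rw [abs_le]
    constructor
    · linarith [f2.1]
    · linarith [f1.2]
  have hyy : y ∈ Q (2 * r + 1) y' := (q4 _ _ _).1 hy'
  set P := Q (3 * r + 1) y with hP
  set B := Q (K2 * (r + 1)) y' with hB
  have hBD : B ⊆ D := by
    refine (q5 (K2 * (r + 1)) (2 * r + 1) y' y hy').trans ((q6 _ _ y ?_).trans hD)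
    nlinarith
  have hP5 : P ⊆ Q (5 * (r + 1)) y' := by
    refine (q5 (3 * r + 1) (2 * r + 1) y y' hyy).trans (q6 _ _ y' ?_)
    omega
  have hPB : P ⊆ B := hP5.trans (q6 _ _ y' (Nat.mul_le_mul hK25 le_rfl))
  -- the functions
  set f : Site d → ℝ := Gr p D (fun x => 1 * ind (A ∩ P) x + (-c) * ind P x) with hf
  set h : Site d → ℝ := Gr p B (fun x => 1 * ind (A ∩ P) x + (-c) * ind P x) with hh
  have hfeq : ∀ x, f x = Gr p D (ind (A ∩ P)) x - c * Gr p D (ind P) x := by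
    intro x
    obtain ⟨-, -, -, -, g5, -⟩ := hGCM d κ p hκ hp D
    have := congrFun (g5 (ind (A ∩ P)) (ind P) 1 (-c)) x
    rw [hf, this]
    ring
  have hheq : ∀ x, h x = Gr p B (ind (A ∩ P)) x - c * Gr p B (ind P) x := by
    intro x
    obtain ⟨-, -, -, -, g5, -⟩ := hGCM d κ p hκ hp B
    have := congrFun (g5 (ind (A ∩ P)) (ind P) 1 (-c)) x
    rw [hh, this]
    ring
  obtain ⟨f0, f1⟩ := (hGEX d κ p hκ hp D (fun x => 1 * ind (A ∩ P) x + (-c) * ind P x)).1
  obtain ⟨h0, h1⟩ := (hGEX d κ p hκ hp B (fun x => 1 * ind (A ∩ P) x + (-c) * ind P x)).1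
  have f1' : ∀ x ∈ D, x ∉ P → lap p f x = 0 := by
    intro x hx hxP
    have := f1 x hx
    rw [← hf] at this
    rw [this]
    have e1 : ind P x = 0 := if_neg hxP
    have e2 : ind (A ∩ P) x = 0 := if_neg (fun hxx => hxP (mem_inter.1 hxx).2)
    show -(1 * ind (A ∩ P) x + (-c) * ind P x) = 0
    rw [e1, e2]
    simp
  obtain ⟨z0, hz0P, hz0⟩ := exists_min_image P f ⟨y, mem_self_Q hQQQ _ y⟩
  -- lower bound for `h z0`
  have hr0 : (0 : ℝ) < ((r : ℝ) + 1) ^ 2 := by positivity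
  have hlow : c1 * ((r : ℝ) + 1) ^ 2 ≤ Gr p B (ind (A ∩ P)) z0 := by
    have s1 := hdns p hp r y' (A ∩ Q r y') inter_subset_right hcard.le z0 (hP5 hz0P)
    obtain ⟨-, -, -, -, -, g6, -⟩ := hGCM d κ p hκ hp (Q (K1 * (r + 1)) y')
    have s2 := g6 B (q6 _ _ y' (Nat.mul_le_mul hK21 le_rfl)) (ind (A ∩ Q r y'))
      (fun x _ => ind_nonneg _ x) z0
    obtain ⟨-, -, g3, -⟩ := hGCM d κ p hκ hp B
    have s3 := g3 (ind (A ∩ Q r y')) (ind (A ∩ P))
      (fun x _ => ind_mono (inter_subset_inter (subset_refl A) hsub) x) z0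
    exact s1.trans (s2.trans s3)
  have hupp : Gr p B (ind P) z0 ≤ C2 * ((r : ℝ) + 1) ^ 2 := by
    obtain ⟨-, -, g3, -⟩ := hGCM d κ p hκ hp B
    have s1 := g3 (ind P) (fun _ => 1) (fun x _ => ind_le_one _ x) z0
    have s2 := (hEXT d κ p hκ hp (K2 * (r + 1)) y').1 B (by rw [hB]) z0
    refine s1.trans (s2.trans ?_)
    rw [hC2]
    push_cast
    have e1 : (K2 : ℝ) * ((r : ℝ) + 1) + 1 ≤ ((K2 : ℝ) + 1) * ((r : ℝ) + 1) := by
      have : (0 : ℝ) ≤ r := Nat.cast_nonneg _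
      nlinarith
    have e2 : ((K2 : ℝ) * ((r : ℝ) + 1) + 1) ^ 2 ≤ (((K2 : ℝ) + 1) * ((r : ℝ) + 1)) ^ 2 :=
      pow_le_pow_left₀ (by positivity) e1 2
    calc (d : ℝ) * ((K2 : ℝ) * ((r : ℝ) + 1) + 1) ^ 2
        ≤ (d : ℝ) * (((K2 : ℝ) + 1) * ((r : ℝ) + 1)) ^ 2 :=
          mul_le_mul_of_nonneg_left e2 (Nat.cast_nonneg d)
      _ ≤ ((d : ℝ) * ((K2 : ℝ) + 1) ^ 2 + 1) * ((r : ℝ) + 1) ^ 2 := by nlinarith
  have hz0pos : 0 < h z0 := by
    rw [hheq]
    have s1 : c * Gr p B (ind P) z0 ≤ c * (C2 * ((r : ℝ) + 1) ^ 2) :=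
      mul_le_mul_of_nonneg_left hupp hcpos.le
    have s2 : c * (C2 * ((r : ℝ) + 1) ^ 2) ≤ c1 / 2 * ((r : ℝ) + 1) ^ 2 := by
      rw [← mul_assoc]
      exact mul_le_mul_of_nonneg_right hcC2 hr0.le
    have s3 : c1 / 2 * ((r : ℝ) + 1) ^ 2 < c1 * ((r : ℝ) + 1) ^ 2 :=
      mul_lt_mul_of_pos_right (by linarith) hr0
    linarith
  -- the minimum is nonnegative
  have hmin : 0 ≤ f z0 := by
    by_contra hneg
    push Not at hneg
    have hall := ge_of_ge hMXP hκ hp D P f f0 f1' hneg.le hz0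
    have key : ∀ x ∈ B, (-1) * f x + 1 * h x + f z0 ≤ 0 := by
      apply hMXP d κ p hκ hp B (fun z => (-1) * f z + 1 * h z + f z0)
      · intro x hx
        have a1 := f1 x (hBD hx)
        have a2 := h1 x hx
        rw [← hf] at a1
        rw [← hh] at a2
        rw [lap_lin, a1, a2]
        simp
      · intro x _ l
        constructor
        · intro hx
          have := hall (x + ev l)
          show (-1) * f (x + ev l) + 1 * h (x + ev l) + f z0 ≤ 0
          have h0' : h (x + ev l) = 0 := h0 _ hx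
          rw [h0']
          linarith
        · intro hx
          have := hall (x - ev l)
          show (-1) * f (x - ev l) + 1 * h (x - ev l) + f z0 ≤ 0
          have h0' : h (x - ev l) = 0 := h0 _ hx
          rw [h0']
          linarith
    have := key z0 (hPB hz0P)
    linarith
  have hfin := ge_of_ge hMXP hκ hp D P f f0 f1' le_rfl
    (fun x hx => hmin.trans (hz0 x hx))
  intro z
  have := hfin z
  rw [hfeq] at this
  linarith

end Pool.Agent.Helper87.WP
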