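import Pool.Agent.Helper99.WP.GoalsW

/-!
# Packet WP FRZ: freezing a site at a level
-/

set_option autoImplicit false

open Finset

namespace Pool.Agent.Helper87.WP

open Pool.Agent.Helper99.WP Pool.Agent.Helper99.ERW

section

variable {V : Type} [DecidableEq V] (ξ : V → ℕ → Option V) (x : V) (i : ℕ)

/-- The stacks frozen at `x` at the level `i`. -/
def fr : V → ℕ → Option V := fun y k => if y = x ∧ i ≤ k then none else ξ y k

theorem fr_agree {n : V → ℕ} (hn : n x ≤ i) : ∀ y k, k < n y → ξ y k = fr ξ x i y k := by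
  intro y k hk
  unfold fr
  rw [if_neg]
  rintro ⟨rfl, h⟩
  omega

theorem top_fr_eq {n : V → ℕ} (hn : n x = i) :
    top (fr ξ x i) n = Function.update (top ξ n) x none := by
  funext y
  unfold top fr
  by_cases h : y = x
  · subst h
    rw [if_pos ⟨rfl, hn.ge⟩]
    simp
  · rw [if_neg (fun h' => h h'.1), Function.update_of_ne h]

theorem top_fr_lt {n : V → ℕ} (hn : n x < i) : top (fr ξ x i) n = top ξ n := by
  funext y
  unfold top fr
  rw [if_neg]
  rintro ⟨rfl, h⟩
  omega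

theorem fr_le {n : V → ℕ} (hn : Reach (fr ξ x i) 0 n) : n x ≤ i := by
  unfold Reach at hn
  induction hn with
  | refl => exact Nat.zero_le _
  | tail _ hs ih =>
    obtain ⟨C, hC, rfl⟩ := hs
    unfold pop
    split_ifs with hx
    · obtain ⟨z, -, hz⟩ := hC.2.1 x hx
      unfold top fr at hz
      by_contra hcon
      rw [if_pos ⟨rfl, by omega⟩] at hz
      exact absurd hz (by simp)
    · exact ih

end

theorem FRZ (hCON : CON_stmt) (hTRM : TRM_stmt) (hLOC : LOC_stmt) : FRZ_stmt := by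
  intro V _ _ N ξ x i hT
  obtain ⟨t1, -, t3, -⟩ := hTRM V N
  have hT' : Trunc N (fr ξ x i) := by
    intro y k hk
    unfold fr
    split_ifs
    · rfl
    · exact hT y k hk
  have hterm : ∀ n, Reach ξ 0 n → n x = i → Acyc (Function.update (top ξ n) x none) →
      IsTerm (fr ξ x i) n := by
    intro n h1 h2 h3
    refine ⟨hLOC V ξ (fr ξ x i) n h1 (fr_agree ξ x i h2.le), ?_⟩
    rw [top_fr_eq ξ x i h2]
    exact h3
  refine ⟨⟨?_, ?_⟩, ?_⟩
  · rintro ⟨n, h1, h2, -⟩
    have h4 := t1 ξ n (nst ξ) ((hCON V ξ (nst ξ) n).1 (t3 ξ hT) h1)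
    rw [← h2]
    exact h4 x
  · intro hi
    obtain ⟨r1, r2⟩ := t3 (fr ξ x i) hT'
    set n' := nst (fr ξ x i) with hn'
    have hle := fr_le ξ x i r1
    have hreach : Reach ξ 0 n' :=
      hLOC V (fr ξ x i) ξ n' r1 (fun y k hk => (fr_agree ξ x i hle y k hk).symm)
    have heq : n' x = i := by
      by_contra hne
      have hlt : n' x < i := lt_of_le_of_ne hle hne
      rw [top_fr_lt ξ x i hlt] at r2
      have := (hCON V ξ n' (nst ξ)).2 ⟨hreach, r2⟩ (t3 ξ hT)
      rw [this] at hlt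
      omega
    refine ⟨n', hreach, heq, ?_⟩
    rw [← top_fr_eq ξ x i heq]
    exact r2
  · rintro n m ⟨a1, a2, a3⟩ ⟨b1, b2, b3⟩
    exact (hCON V (fr ξ x i) n m).2 (hterm n a1 a2 a3) (hterm m b1 b2 b3)

end Pool.Agent.Helper87.WP
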