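import Pool.Agent.Helper99.WP.GoalsK

/-!
# Packet WP SCU: one scale, upper bound on the average
-/

set_option autoImplicit false

open Finset

namespace Pool.Agent.Helper87.WP

open Pool.Agent.Helper99.WP Pool.Agent.Helper99.ERW

theorem mem_self_Q (hQQQ : QQQ_stmt) {d : ℕ} (r : ℕ) (x : Site d) : x ∈ Q r x := by
  rw [(hQQQ d).1]
  intro l
  simp

theorem ind_nonneg {d : ℕ} (A : Finset (Site d)) (x : Site d) : 0 ≤ ind A x := by
  unfold ind
  split_ifs <;> norm_num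

theorem ind_le_one {d : ℕ} (A : Finset (Site d)) (x : Site d) : ind A x ≤ 1 := by
  unfold ind
  split_ifs <;> norm_num

section

variable {d : ℕ} {κ : ℝ} {p : Site d → Fin d → ℝ}

theorem gg_nonneg (hGCM : GCM_stmt) (hκ : 0 < κ) (hp : Ell κ p) (D : Finset (Site d))
    (z x : Site d) : 0 ≤ gg p D z x := by
  obtain ⟨-, -, -, g4, -⟩ := hGCM d κ p hκ hp D
  exact g4 (ind {x}) (fun y _ => ind_nonneg _ y) z

/-- The claim: values at the boundary of the small cube are bounded by the average. -/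
theorem claim (hGEX : GEX_stmt) (hGCM : GCM_stmt) (hQQQ : QQQ_stmt) (hκ : 0 < κ)
    (hp : Ell κ p) {K : ℕ} {C1 : ℝ} (hK : 1 ≤ K) (hC1 : 1 ≤ C1)
    (hH : ∀ (R : ℕ) (y : Site d) (u : Site d → ℝ),
      (∀ z ∈ Q (K * (R + 1)) y, lap p u z = 0) → (∀ z ∈ Q (K * (R + 1) + 1) y, 0 ≤ u z) →
      ∀ z ∈ Q R y, ∀ z' ∈ Q R y, u z ≤ C1 * u z')
    {b r : ℕ} (hb : 3 ≤ b) (hr : 1 ≤ r) (x z0 : Site d) (h1 : z0 ∈ Q (r + 1) x)
    (h2 : z0 ∉ Q r x) :
    (r : ℝ) ^ d * gg p (Q (b * r) x) z0 x ≤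
      (2 * (K : ℝ)) ^ d * C1 * ∑ z ∈ Q (3 * r) x, gg p (Q (b * r) x) z x := by
  obtain ⟨q1, q2, q3, q4, q5, q6⟩ := hQQQ d
  set u : Site d → ℝ := fun z => gg p (Q (b * r) x) z x with hu
  have hu0 : ∀ z, 0 ≤ u z := fun z => gg_nonneg hGCM hκ hp _ z x
  have hbr : 3 * r ≤ b * r := Nat.mul_le_mul hb le_rfl
  have hC10 : (0 : ℝ) ≤ C1 := by linarith
  have hK0 : (1 : ℝ) ≤ K := by exact_mod_cast hK
  have hS0 : 0 ≤ ∑ z ∈ Q (3 * r) x, u z := sum_nonneg fun z _ => hu0 z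
  rcases Nat.lt_or_ge r K with hrK | hrK
  · -- small `r`
    have a1 : u z0 ≤ ∑ z ∈ Q (3 * r) x, u z :=
      single_le_sum (f := u) (fun z _ => hu0 z) (q6 (r + 1) (3 * r) x (by omega) h1)
    have a2 : (r : ℝ) ^ d ≤ (2 * (K : ℝ)) ^ d := by
      apply pow_le_pow_left₀ (by positivity)
      have : (r : ℝ) ≤ K := by exact_mod_cast hrK.le
      linarith
    calc (r : ℝ) ^ d * u z0 ≤ (2 * (K : ℝ)) ^ d * u z0 := mul_le_mul_of_nonneg_right a2 (hu0 z0)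
      _ ≤ (2 * (K : ℝ)) ^ d * ∑ z ∈ Q (3 * r) x, u z :=
        mul_le_mul_of_nonneg_left a1 (by positivity)
      _ ≤ (2 * (K : ℝ)) ^ d * C1 * ∑ z ∈ Q (3 * r) x, u z := by
        apply mul_le_mul_of_nonneg_right _ hS0
        exact le_mul_of_one_le_right (by positivity) hC1
  · -- large `r`: Harnack
    obtain ⟨ρ, hρ⟩ : ∃ ρ, ρ + 1 = r / K := by
      have : 1 ≤ r / K := (Nat.one_le_div_iff hK).2 hrK
      exact ⟨r / K - 1, by omega⟩
    have hKρ : K * (ρ + 1) ≤ r := by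
      rw [hρ]
      exact Nat.mul_div_le r K
    have hρr : ρ + 1 ≤ r := by
      rw [hρ]
      exact Nat.div_le_self r K
    have hsub : Q r z0 ⊆ Q (b * r) x := by
      refine (q5 r (r + 1) z0 x h1).trans (q6 _ _ x ?_)
      omega
    have hxn : x ∉ Q r z0 := fun h => h2 ((q4 r z0 x).1 h)
    have hlap : ∀ z ∈ Q (K * (ρ + 1)) z0, lap p u z = 0 := by
      intro z hz
      have hz' : z ∈ Q r z0 := q6 _ _ z0 hKρ hz
      have hzD := hsub hz'
      have hne : z ≠ x := by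
        rintro rfl
        exact hxn hz'
      have := (hGEX d κ p hκ hp (Q (b * r) x) (ind {x})).1.2 z hzD
      have e : lap p u z = lap p (Gr p (Q (b * r) x) (ind {x})) z := rfl
      rw [e, this]
      unfold ind
      rw [if_neg (by simpa using hne), neg_zero]
    have hH' := hH ρ z0 u hlap (fun z _ => hu0 z) z0 (mem_self_Q hQQQ ρ z0)
    have hcard : ((Q ρ z0).card : ℝ) * u z0 ≤ C1 * ∑ z ∈ Q (3 * r) x, u z := by
      have b1 : ((Q ρ z0).card : ℝ) * u z0 ≤ ∑ z' ∈ Q ρ z0, C1 * u z' := by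
        rw [← nsmul_eq_mul, ← sum_const]
        exact sum_le_sum hH'
      rw [← mul_sum] at b1
      refine b1.trans (mul_le_mul_of_nonneg_left ?_ hC10)
      apply sum_le_sum_of_subset_of_nonneg
      · refine (q5 ρ (r + 1) z0 x h1).trans (q6 _ _ x ?_)
        omega
      · intro z _ _
        exact hu0 z
    have hcard2 : (r : ℝ) ^ d ≤ (2 * (K : ℝ)) ^ d * ((Q ρ z0).card : ℝ) := by
      rw [q2]
      push_cast
      rw [← mul_pow]
      apply pow_le_pow_left₀ (by positivity)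
      have c1 : r < K * (ρ + 2) := by
        have := Nat.lt_mul_div_succ r (show 0 < K by omega)
        rw [← hρ] at this
        calc r < K * (ρ + 1 + 1) := this
          _ = K * (ρ + 2) := by ring
      have c2 : (r : ℝ) ≤ K * (ρ + 2) := by exact_mod_cast c1.le
      have c3 : (0 : ℝ) ≤ ρ := Nat.cast_nonneg _
      nlinarith
    calc (r : ℝ) ^ d * u z0 ≤ ((2 * (K : ℝ)) ^ d * ((Q ρ z0).card : ℝ)) * u z0 :=
          mul_le_mul_of_nonneg_right hcard2 (hu0 z0)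
      _ = (2 * (K : ℝ)) ^ d * (((Q ρ z0).card : ℝ) * u z0) := by ring
      _ ≤ (2 * (K : ℝ)) ^ d * (C1 * ∑ z ∈ Q (3 * r) x, u z) :=
        mul_le_mul_of_nonneg_left hcard (by positivity)
      _ = (2 * (K : ℝ)) ^ d * C1 * ∑ z ∈ Q (3 * r) x, u z := by ring

/-- The sum over `x` for fixed `z`. -/
theorem colsum (hGCM : GCM_stmt) (hQQQ : QQQ_stmt) (hEXT : EXT_stmt) (hκ : 0 < κ)
    (hp : Ell κ p) {b r : ℕ} (hr : 1 ≤ r) (z : Site d) :
    ∑ x ∈ Q (3 * r) z, gg p (Q (b * r) x) z x ≤ d * (((b : ℝ) + 4) * r) ^ 2 := by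
  obtain ⟨q1, q2, q3, q4, q5, q6⟩ := hQQQ d
  set D := Q (b * r + 3 * r) z with hD
  obtain ⟨-, -, g3, -, -, -, g7⟩ := hGCM d κ p hκ hp D
  have h1 : ∑ x ∈ Q (3 * r) z, gg p (Q (b * r) x) z x ≤ ∑ x ∈ Q (3 * r) z, gg p D z x := by
    refine sum_le_sum fun x hx => ?_
    obtain ⟨-, -, -, -, -, g6, -⟩ := hGCM d κ p hκ hp (Q (b * r) x)
    exact g6 D (q5 (b * r) (3 * r) x z hx) (ind {x}) (fun y _ => ind_nonneg _ y) z
  rw [← g7 (Q (3 * r) z) z] at h1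
  have h2 : Gr p D (ind (Q (3 * r) z)) z ≤ Gr p D (fun _ => 1) z :=
    g3 _ _ (fun y _ => ind_le_one _ y) z
  have h3 := (hEXT d κ p hκ hp (b * r + 3 * r) z).1 D (by rw [hD]) z
  refine h1.trans (h2.trans (h3.trans ?_))
  apply mul_le_mul_of_nonneg_left _ (Nat.cast_nonneg _)
  apply pow_le_pow_left₀ (by positivity)
  push_cast
  have : (1 : ℝ) ≤ r := by exact_mod_cast hr
  nlinarith

end

theorem SCU (hGEX : GEX_stmt) (hGCM : GCM_stmt) (hQQQ : QQQ_stmt) (hEXT : EXT_stmt)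
    (hHRN : HRN_stmt) (hTEL : TEL_stmt) : SCU_stmt := by
  intro d κ hκ b hb
  obtain ⟨K, C1, hK, hC1, hH⟩ := hHRN d κ hκ
  have hC10 : (0 : ℝ) ≤ C1 := by linarith
  refine ⟨(2 * (K : ℝ)) ^ d * C1 * (d * ((b : ℝ) + 4) ^ 2), by positivity, ?_⟩
  intro p hp R r hr
  obtain ⟨q1, q2, q3, q4, q5, q6⟩ := hQQQ d
  have hr0 : (0 : ℝ) < (r : ℝ) ^ d := by
    have : (0 : ℝ) < r := by exact_mod_cast hr
    positivity
  set C0 : ℝ := (2 * (K : ℝ)) ^ d * C1 with hC0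
  have hC00 : 0 ≤ C0 := by positivity
  have hbr : r ≤ b * r := Nat.le_mul_of_pos_left r (by omega)
  -- one `x`
  have hone : ∀ x : Site d, gg p (Q (b * r) x) x x - gg p (Q r x) x x ≤
      C0 / (r : ℝ) ^ d * ∑ z ∈ Q (3 * r) x, gg p (Q (b * r) x) z x := by
    intro x
    have hcl : ∀ z0 ∈ Q (r + 1) x, z0 ∉ Q r x → gg p (Q (b * r) x) z0 x ≤
        C0 / (r : ℝ) ^ d * ∑ z ∈ Q (3 * r) x, gg p (Q (b * r) x) z x := by
      intro z0 h1 h2
      have := claim hGEX hGCM hQQQ hκ hp hK hC1 (hH p hp) hb hr x z0 h1 h2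
      rw [div_mul_eq_mul_div, le_div_iff₀ hr0, mul_comm]
      exact this
    have ht := (hTEL d κ p hκ hp (Q r x) (Q (b * r) x) x
      (C0 / (r : ℝ) ^ d * ∑ z ∈ Q (3 * r) x, gg p (Q (b * r) x) z x) (q6 r (b * r) x hbr)
      (mem_self_Q hQQQ r x)).2 (by
        intro y hy l
        obtain ⟨e1, e2⟩ := q3 r x y hy l
        exact ⟨fun h => hcl _ e1 h, fun h => hcl _ e2 h⟩)
    linarith
  -- exchange
  have hexch : ∑ x ∈ Q R (0 : Site d), ∑ z ∈ Q (3 * r) x, gg p (Q (b * r) x) z x ≤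
      ∑ z ∈ Q (R + 3 * r) (0 : Site d), ∑ x ∈ Q (3 * r) z, gg p (Q (b * r) x) z x := by
    classical
    have e1 : ∀ x ∈ Q R (0 : Site d), ∑ z ∈ Q (3 * r) x, gg p (Q (b * r) x) z x =
        ∑ z ∈ Q (R + 3 * r) (0 : Site d),
          if z ∈ Q (3 * r) x then gg p (Q (b * r) x) z x else 0 := by
      intro x hx
      rw [← sum_filter]
      congr 1
      have hsub := q5 (3 * r) R x 0 hx
      rw [add_comm] at hsub
      ext z
      rw [mem_filter]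
      exact ⟨fun h => ⟨hsub h, h⟩, fun h => h.2⟩
    rw [sum_congr rfl e1, sum_comm]
    refine sum_le_sum fun z _ => ?_
    rw [← sum_filter]
    apply sum_le_sum_of_subset_of_nonneg
    · intro x hx
      rw [mem_filter] at hx
      exact (q4 (3 * r) x z).1 hx.2
    · intro x _ _
      exact gg_nonneg hGCM hκ hp _ z x
  calc ∑ x ∈ Q R (0 : Site d), (gg p (Q (b * r) x) x x - gg p (Q r x) x x)
      ≤ ∑ x ∈ Q R (0 : Site d),
        C0 / (r : ℝ) ^ d * ∑ z ∈ Q (3 * r) x, gg p (Q (b * r) x) z x :=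
        sum_le_sum fun x _ => hone x
    _ = C0 / (r : ℝ) ^ d *
        ∑ x ∈ Q R (0 : Site d), ∑ z ∈ Q (3 * r) x, gg p (Q (b * r) x) z x := by rw [mul_sum]
    _ ≤ C0 / (r : ℝ) ^ d *
        ∑ z ∈ Q (R + 3 * r) (0 : Site d), ∑ x ∈ Q (3 * r) z, gg p (Q (b * r) x) z x :=
        mul_le_mul_of_nonneg_left hexch (by positivity)
    _ ≤ C0 / (r : ℝ) ^ d *
        ∑ z ∈ Q (R + 3 * r) (0 : Site d), ((d : ℝ) * (((b : ℝ) + 4) * r) ^ 2) := by
        apply mul_le_mul_of_nonneg_left _ (by positivity)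
        exact sum_le_sum fun z _ => colsum hGCM hQQQ hEXT hκ hp hr z
    _ = C0 * (d * ((b : ℝ) + 4) ^ 2) * (r : ℝ) ^ 2 / (r : ℝ) ^ d *
        (Q (R + 3 * r) (0 : Site d)).card := by
        rw [sum_const, nsmul_eq_mul]
        ring

end Pool.Agent.Helper87.WP
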